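import Pool.Agent.H.MP_8dad47_al.C

set_option autoImplicit false

namespace Pool.Agent.Results.MP_d6f7e8_al.No

open Pool.Agent.HShift MvPolynomial Finset

/-- The contraction to `S` of the extension of `J` to `A`. -/
def extCon {S : Type} [CommRing S] (A : Type) [CommRing A] [Algebra S A] (J : Ideal S) : Ideal S :=
  (J.map (algebraMap S A)).comap (algebraMap S A)

/-- The `k`-th symbolic power, taken over all associated primes. -/
noncomputable def symb {S : Type} [CommRing S] (I : Ideal S) (k : ℕ) : Ideal S :=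
  ⨅ P : {P : PrimeSpectrum S // P.asIdeal ∈ associatedPrimes S (S ⧸ I)},
    extCon (Localization.AtPrime P.1.asIdeal) (I ^ k)

section
variable {n : ℕ} {K : Type} [Field K]

/-- The ideal generated by the forms of degree `j` in `J`. -/
noncomputable def comp (J : Ideal (MvPolynomial (Fin n) K)) (j : ℕ) : Ideal (MvPolynomial (Fin n) K) :=
  Ideal.span {f | f ∈ J ∧ f.IsHomogeneous j}

/-- Elements of degree `d` of the `i`-th term of the Koszul complex of `J`. -/
def IsChainZ (J : Ideal (MvPolynomial (Fin n) K)) (i d : ℕ)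
    (c : Finset (Fin n) → MvPolynomial (Fin n) K) : Prop :=
  ∀ F, c F ∈ J ∧ ∀ m ∈ (c F).support, F.card = i ∧ m.degree + i = d

/-- The graded Betti number of `J` in homological degree `i` and degree `d` is nonzero. -/
def BettiNe (J : Ideal (MvPolynomial (Fin n) K)) (i d : ℕ) : Prop :=
  ∃ c, IsChainZ J i d c ∧ kd c = 0 ∧ ¬ ∃ w, IsChainZ J (i + 1) d w ∧ kd w = c

/-- Componentwise linear ideals. -/
def IsCWLinear (J : Ideal (MvPolynomial (Fin n) K)) : Prop :=
  ∀ j i d, BettiNe (comp J j) i d → d = i + j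
end

lemma mem_symb {S : Type} [CommRing S] [IsNoetherianRing S] {I : Ideal S} {k : ℕ} {f : S} :
    f ∈ symb I k ↔ ∀ P : Ideal S, P.IsPrime → ∀ u, (∀ r, r ∈ P ↔ r * u ∈ I) →
      ∃ s ∉ P, s * f ∈ I ^ k := by
  have e : ∀ u r : S, r ∈ (⊥ : Submodule S (S ⧸ I)).colon {Ideal.Quotient.mk I u} ↔ r * u ∈ I :=
    fun u r => by
      rw [Submodule.mem_colon_singleton, Submodule.mem_bot, ← Ideal.Quotient.eq_zero_iff_mem]
      rfl
  simp only [symb, extCon, Ideal.mem_iInf, Ideal.mem_comap]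
  refine ⟨fun h P hP u hu => ?_, fun h ⟨P, hP⟩ => ?_⟩
  · exact (IsLocalization.algebraMap_mem_map_algebraMap_iff P.primeCompl _ _ _).1 (h ⟨⟨P, hP⟩,
      isAssociatedPrime_iff.2 ⟨hP, _, Ideal.ext fun r => (hu r).trans (e u r).symm⟩⟩)
  · obtain ⟨-, u, hu⟩ := isAssociatedPrime_iff.1 hP
    obtain ⟨u, rfl⟩ := Ideal.Quotient.mk_surjective u
    exact (IsLocalization.algebraMap_mem_map_algebraMap_iff P.asIdeal.primeCompl _ _ _).2
      (h _ P.2 u fun r => hu ▸ e u r)

variable {K : Type} [Field K]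

noncomputable def ps (C : Finset (Fin 6)) :
    MvPolynomial (Fin 6) K →ₐ[K] Polynomial (MvPolynomial (Fin 6) K) :=
  aeval fun j => Polynomial.monomial (if j ∈ C then 1 else 0) (X j)

lemma ps_dvd (C : Finset (Fin 6)) (f : MvPolynomial (Fin 6) K) (m : ℕ) :
    Polynomial.X ^ m ∣ ps C f ↔ ∀ a ∈ f.support, m ≤ ∑ j ∈ C, a j := by
  have h1 : ∀ a (c : K), ps C (monomial a c) = Polynomial.monomial (∑ j ∈ C, a j) (monomial a c) :=
    fun a c => by
      rw [ps, aeval_monomial, Finsupp.prod_fintype _ _ fun _ => pow_zero _, monomial_eq,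
        Finsupp.prod_fintype _ _ fun _ => pow_zero _]
      simp only [← Polynomial.C_mul_X_pow_eq_monomial, mul_pow, ← pow_mul, prod_mul_distrib,
        prod_pow_eq_pow_sum, map_mul, map_prod, mul_assoc, map_pow]
      simp
  have h2 : ∀ a t, coeff a ((ps C f).coeff t) = if ∑ j ∈ C, a j = t then coeff a f else 0 := by
    intro a t
    induction f using MvPolynomial.induction_on' with
    | monomial b c =>
      rw [h1, Polynomial.coeff_monomial]
      by_cases h : b = a <;> split_ifs <;> simp_all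
    | add p q hp hq => simp only [map_add, Polynomial.coeff_add, coeff_add, hp, hq, ite_add_ite,
        add_zero]
  rw [Polynomial.X_pow_dvd_iff]
  refine ⟨fun h a ha => not_lt.1 fun h3 => mem_support_iff.1 ha ?_, fun h t ht => ?_⟩
  · simpa [h _ h3] using (h2 a _).symm.trans (congrArg _ (h _ h3))
  · ext a
    rw [h2, ite_eq_right_iff.2 fun h3 => by_contra fun h4 => by
      have := h a (mem_support_iff.2 h4)
      omega, coeff_zero]

def iv (F : Finset (Fin 6)) (j : Fin 6) : ℕ := if j ∈ F then 1 else 0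

def trees : List (Finset (Fin 6)) :=
  [{0, 1, 2}, {0, 1, 3}, {0, 1, 4}, {0, 1, 5}, {0, 2, 3}, {0, 2, 4}, {0, 3, 5}, {0, 4, 5},
    {1, 2, 3}, {1, 2, 5}, {1, 3, 4}, {1, 4, 5}, {2, 3, 4}, {2, 3, 5}, {2, 4, 5}, {3, 4, 5}]

def cuts : List (Finset (Fin 6)) :=
  [{0, 2, 4}, {0, 3, 5}, {1, 2, 5}, {1, 3, 4}, {2, 3, 4, 5}, {0, 1, 4, 5}, {0, 1, 2, 3}]

noncomputable def I0 (K : Type) [Field K] : Ideal (MvPolynomial (Fin 6) K) :=
  Ideal.span ((fun a => monomial a (1 : K)) '' (ee '' {T | T ∈ trees}))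

lemma ee_le {T : Finset (Fin 6)} {a : Fin 6 →₀ ℕ} : ee T ≤ a ↔ T ⊆ a.support := by
  simp only [Finsupp.le_def, ee_apply, subset_iff, Finsupp.mem_support_iff]
  exact forall_congr' fun j => by split_ifs <;> simp [*, Nat.one_le_iff_ne_zero]

lemma mem_I0 {f : MvPolynomial (Fin 6) K} :
    f ∈ I0 K ↔ ∀ a ∈ f.support, ∃ T ∈ trees, T ⊆ a.support := by
  simp [I0, mem_ideal_span_monomial_image, ee_le]

lemma supp_mono {f : MvPolynomial (Fin 6) K} {F : Finset (Fin 6)} :
    f * monomial (ee F) 1 ∈ I0 K ↔ ∀ a ∈ f.support, ∃ T ∈ trees, T ⊆ a.support ∪ F := by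
  have e : ∀ a : Fin 6 →₀ ℕ, (a + ee F).support = a.support ∪ F := fun a => by
    ext j
    simp [ee_apply, imp_iff_not_or, or_comm]
  rw [mem_I0]
  refine ⟨fun h a ha => e a ▸ h _ ?_, fun h a ha => ?_⟩
  · rwa [mem_support_iff, coeff_mul_monomial, mul_one, ← mem_support_iff]
  · obtain ⟨b, hb, c, hc, rfl⟩ := mem_add.1 (support_mul _ _ ha)
    obtain rfl := mem_singleton.1 (support_monomial_subset hc)
    exact e b ▸ h b hb

lemma d1 : (cuts.all fun C => decide (∀ U : Finset (Fin 6),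
    (U ∩ C).Nonempty ↔ trees.any (· ⊆ U ∪ Cᶜ))) = true := by decide +kernel

lemma upper {f : MvPolynomial (Fin 6) K} (hf : f ∈ symb (I0 K) 2) :
    ∀ C ∈ cuts, ∀ a ∈ f.support, 2 ≤ ∑ j ∈ C, a j := by
  intro C hC
  have h1 := of_decide_eq_true (List.all_eq_true.1 d1 C hC)
  simp only [List.any_eq_true, decide_eq_true_eq] at h1
  let P := (Ideal.span {Polynomial.X}).comap (ps (K := K) C)
  have h2 : ∀ r, r ∈ P ↔ Polynomial.X ∣ ps C r := fun r => Ideal.mem_span_singleton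
  have h3 : ∀ r, r ∈ P ↔ r * monomial (ee Cᶜ) 1 ∈ I0 K := fun r => by
    rw [h2, ← pow_one Polynomial.X, ps_dvd, supp_mono]
    refine forall₂_congr fun a _ => ?_
    rw [← h1, Nat.one_le_iff_ne_zero, Ne, sum_eq_zero_iff]
    simp [Finset.Nonempty, and_comm]
  have := (Ideal.span_singleton_prime Polynomial.X_ne_zero).2
    (Polynomial.prime_X (R := MvPolynomial (Fin 6) K))
  obtain ⟨s, h4, h5⟩ := mem_symb.1 hf P (Ideal.comap_isPrime _ _) _ h3
  have h6 : I0 K ≤ P := fun r hr => (h3 r).2 (Ideal.mul_mem_right _ _ hr)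
  have h7 := Ideal.le_comap_pow _ 2 (Ideal.pow_right_mono h6 2 h5)
  rw [Ideal.mem_comap, Ideal.span_singleton_pow, Ideal.mem_span_singleton, map_mul] at h7
  exact (ps_dvd C f 2).1 (Polynomial.prime_X.pow_dvd_of_dvd_mul_left 2 (mt (h2 s).2 h4) h7)

lemma d2 : ∀ U : Finset (Fin 6), trees.any (· ⊆ U) ∨ ∀ t : Fin 6, t = 0 ∨ t = 2 →
    trees.any fun T => trees.any fun T' => decide (∀ j, iv T j + iv T' j ≤
      iv {t, t + 1}ᶜ j + 2 * iv {e | ¬ trees.any (· ⊆ U ∪ {e})} j) := by decide +kernel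

lemma lower (t : Fin 6) (ht : t = 0 ∨ t = 2) :
    monomial (ee {t, t + 1}ᶜ) (1 : K) ∈ comp (symb (I0 K) 2) 4 := by
  refine Ideal.subset_span ⟨mem_symb.2 fun P hP u hu => ?_, isHomogeneous_monomial _ ?_⟩
  · have h1 : u ∉ I0 K := fun h => hP.ne_top ((Ideal.eq_top_iff_one _).2 ((hu 1).2 (by simpa)))
    rw [mem_I0] at h1
    push Not at h1
    obtain ⟨a, ha, h1⟩ := h1
    have h2 := (d2 a.support).resolve_left (by simpa using h1) t ht
    simp only [List.any_eq_true, decide_eq_true_eq] at h2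
    obtain ⟨T, hT, T', hT', h2⟩ := h2
    set E : Finset (Fin 6) := {e | ¬ ∃ T ∈ trees, T ⊆ a.support ∪ {e}}
    refine ⟨monomial (ee E) 1 ^ 2, fun h => ?_, ?_⟩
    · have h3 := hP.mem_of_pow_mem _ h
      rw [ee, monomial_sum_one] at h3
      obtain ⟨e, he, h3⟩ := (Ideal.IsPrime.prod_mem_iff (hp := hP)).1 h3
      rw [hu, mul_comm, show Finsupp.single e 1 = ee {e} by simp [ee], supp_mono] at h3
      exact (mem_filter.1 he).2 (h3 a ha)
    · rw [monomial_pow, monomial_mul, one_pow, one_mul, I0, span_pow]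
      refine mem_ideal_span_monomial_image.2 fun b hb => ⟨_, ⟨![ee T, ee T'], ?_, rfl⟩, fun j => ?_⟩
      · simpa [Fin.forall_fin_two] using ⟨⟨T, hT, rfl⟩, T', hT', rfl⟩
      · obtain rfl := mem_singleton.1 (support_monomial_subset hb)
        have := h2 j
        simp only [Fin.sum_univ_two, Matrix.cons_val, Finsupp.add_apply, Finsupp.smul_apply,
          ee_apply, iv, smul_eq_mul] at this ⊢
        omega
  · rw [Finsupp.degree_eq_sum]
    rcases ht with rfl | rfl <;> simp only [ee_apply] <;> decide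

lemma low4 {f : MvPolynomial (Fin 6) K} (hf : f ∈ comp (symb (I0 K) 2) 4) :
    ∀ a ∈ f.support, ∃ b, (∑ j, b j = 4 ∧ ∀ C ∈ cuts, 2 ≤ ∑ j ∈ C, b j) ∧ b ≤ a := by
  have : comp (symb (I0 K) 2) 4 ≤ Ideal.span ((fun a => monomial a (1 : K)) ''
      {b | ∑ j, b j = 4 ∧ ∀ C ∈ cuts, 2 ≤ ∑ j ∈ C, b j}) := Ideal.span_le.2 fun g hg =>
    mem_ideal_span_monomial_image.2 fun a ha => ⟨a, ⟨by
      rw [← Finsupp.degree_eq_sum, Finsupp.degree_eq_weight_one]
      exact hg.2 (mem_support_iff.1 ha), fun C hC => upper hg.1 C hC a ha⟩, le_rfl⟩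
  exact mem_ideal_span_monomial_image.1 (this hf)

lemma d3 : ∀ j l : Fin 6, l ≠ j → j = 0 ∨ j = 1 → insert l {j} = ({0, 1} : Finset (Fin 6)) ∨
    cuts.any fun C => decide (∑ e ∈ C, iv (insert l {j})ᶜ e < 2) := by decide +kernel

lemma d4 : (trees.all fun T => trees.all fun T' => decide (T.card = 3 ∧ ∀ p, iv T' p < iv T p →
    ∃ q, iv T q < iv T' q ∧ insert q (T.erase p) ∈ trees)) = true := by decide +kernel

lemma ee_ins {l : Fin 6} {G : Finset (Fin 6)} (h : l ∉ G) :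
    Finsupp.single l 1 + ee (insert l G)ᶜ = ee Gᶜ := by
  ext j
  by_cases h1 : j = l <;> simp [ee_apply, h1, h]

lemma bdry {w : Finset (Fin 6) → MvPolynomial (Fin 6) K}
    (hw : ∀ F, w F ∈ comp (symb (I0 K) 2) 4) (j l : Fin 6) (hj : j = 0 ∧ l = 1 ∨ j = 1 ∧ l = 0) :
    coeff (ee {j}ᶜ) (kd w {j}) = sg K l {j} * coeff (ee {0, 1}ᶜ) (w {0, 1}) := by
  have h1 : ∀ l ∈ ({j}ᶜ : Finset (Fin 6)), coeff (ee {j}ᶜ) ((-1) ^ (({j} : Finset (Fin 6)).filter
      (· < l)).card * X l * w (insert l {j})) =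
      sg K l {j} * coeff (ee (insert l {j})ᶜ) (w (insert l {j})) := fun l hl => by
    rw [← ee_ins (mem_compl.1 hl), mul_assoc, ← coeff_X_mul _ l (w _), ← coeff_C_mul, sg, map_pow,
      map_neg, map_one]
  rw [kd, coeff_sum, sum_congr rfl h1, sum_eq_single_of_mem l (by rcases hj with ⟨rfl, rfl⟩ |
    ⟨rfl, rfl⟩ <;> decide) fun e he h => ?_]
  · rcases hj with ⟨rfl, rfl⟩ | ⟨rfl, rfl⟩
    · rw [pair_comm]
    · rfl
  refine mul_eq_zero_of_right _ (by_contra fun h2 => ?_)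
  obtain ⟨b, ⟨-, h3⟩, h4⟩ := low4 (hw _) _ (mem_support_iff.2 h2)
  rcases d3 j e (by simpa using he) (hj.imp And.left And.left) with h5 | h5
  · clear h2 h4
    revert h h5
    rcases hj with ⟨rfl, rfl⟩ | ⟨rfl, rfl⟩ <;> revert e <;> decide
  · obtain ⟨C, h5, h6⟩ := List.any_eq_true.1 h5
    have := (h3 C h5).trans (sum_le_sum fun e _ => (h4 e).trans (ee_apply _ e).le)
    exact (of_decide_eq_true h6).not_ge this

/-- The ideal of the spanning trees of `K₄`: its second symbolic power is not componentwise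
linear. -/
theorem result (K : Type) [Field K] : ∃ (n : ℕ) (I : Ideal (MvPolynomial (Fin n) K)) (k : ℕ),
    I ≠ ⊥ ∧ IsPolymatroidal I ∧ 1 ≤ k ∧ ¬ IsCWLinear (symb I k) := by
  have h4 := d4
  simp only [List.all_eq_true, decide_eq_true_eq] at h4
  have h5 : ∀ F : Finset (Fin 6), (ee F).degree = F.card := fun F => by
    simp [Finsupp.degree_eq_sum, ee_apply]
  refine ⟨6, I0 K, 2, fun h => ?_, ⟨_, rfl, ?_, ?_⟩, one_le_two, fun h => ?_⟩
  · exact monomial_eq_zero.not.2 one_ne_zero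
      (Ideal.span_eq_bot.1 h _ ⟨_, ⟨{0, 1, 2}, by decide, rfl⟩, rfl⟩)
  · rintro _ ⟨T, hT, rfl⟩ _ ⟨T', hT', rfl⟩
    rw [h5, h5, (h4 T hT T hT).1, (h4 T' hT' T hT).1]
  · rintro _ ⟨T, hT, rfl⟩ _ ⟨T', hT', rfl⟩ p hp
    simp only [ee_apply] at hp ⊢
    obtain ⟨q, h1, h2⟩ := (h4 T hT T' hT').2 p hp
    refine ⟨q, h1, _, h2, Finsupp.ext fun j => ?_⟩
    simp only [iv, ee_apply, Finsupp.add_apply, Finsupp.tsub_apply, Finsupp.single_apply,
      mem_insert, mem_erase] at h1 ⊢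
    grind
  have h1 : ∀ t : Fin 6, t = 0 ∨ t = 2 → monomial (ee {t}ᶜ) (1 : K) ∈ comp (symb (I0 K) 2) 4 :=
    fun t ht => by
      rw [← ee_ins (l := t + 1) (by rcases ht with rfl | rfl <;> decide), pair_comm,
        monomial_single_add]
      exact Ideal.mul_mem_left _ _ (lower t ht)
  let c : Finset (Fin 6) → MvPolynomial (Fin 6) K := fun F =>
    if F = {0} then monomial (ee {0}ᶜ) 1 else if F = {2} then -monomial (ee {2}ᶜ) 1 else 0
  refine absurd (h 4 1 6 ⟨c, fun F => ?_, funext fun G => ?_, fun ⟨w, h2, h3⟩ => ?_⟩) (by decide)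
  · simp only [c]
    split_ifs with h2 h3
    · refine ⟨h1 0 (.inl rfl), fun m hm => ?_⟩
      rw [mem_singleton.1 (support_monomial_subset hm), h2, h5]
      decide
    · refine ⟨neg_mem (h1 2 (.inr rfl)), fun m hm => ?_⟩
      rw [support_neg] at hm
      rw [mem_singleton.1 (support_monomial_subset hm), h3, h5]
      decide
    · simp
  · rcases G.eq_empty_or_nonempty with rfl | hG
    · have e : ∀ t : Fin 6, X t * monomial (ee {t}ᶜ) (1 : K) = monomial (ee ∅ᶜ) 1 := fun t => by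
        rw [← ee_ins (notMem_empty t), monomial_single_add, pow_one]
        rfl
      simp [kd, c, Fin.sum_univ_six, e]
    · refine sum_eq_zero fun j hj => mul_eq_zero_of_right _ ?_
      have h2 : ∀ t, insert j G ≠ {t} := fun t h => by
        have := congrArg card h
        have := card_pos.2 hG
        rw [card_insert_of_notMem (mem_compl.1 hj), card_singleton] at *
        omega
      simp only [c, if_neg (h2 _)]
  · have h6 := bdry (fun F => (h2 F).1) 0 1 (.inl ⟨rfl, rfl⟩)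
    have h7 := bdry (fun F => (h2 F).1) 1 0 (.inr ⟨rfl, rfl⟩)
    rw [h3] at h6 h7
    simp only [c, if_pos, if_neg (show ({1} : Finset (Fin 6)) ≠ {0} by decide),
      if_neg (show ({1} : Finset (Fin 6)) ≠ {2} by decide), coeff_zero, coeff_monomial] at h6 h7
    rw [(mul_eq_zero.1 h7.symm).resolve_left (sg_ne _ _), mul_zero] at h6
    exact one_ne_zero h6

end Pool.Agent.Results.MP_d6f7e8_al.No
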